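import Pool.Agent.U722.FF.Stm2

set_option autoImplicit false

/-! Project FS, package BSZ: the Baumslag-Solitar groups with exponents of the same absolute value
contain `ℤ ^ 2`. -/

namespace Pool.Agent.U208.FSP

open U722.FF

/-- the relators -/
abbrev Rel (p q : ℤ) : Set (FreeGroup Bool) :=
  {FreeGroup.of true * FreeGroup.of false ^ p * (FreeGroup.of true)⁻¹ * (FreeGroup.of false ^ q)⁻¹}

/-- commuting elements without relations -/
theorem hasZ2_of {G : Type} [Group G] (x y : G) (hc : x * y = y * x)
    (h : ∀ m n : ℤ, x ^ m * y ^ n = 1 → m = 0 ∧ n = 0) : HasZ2 G := by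
  have hC : Commute x y := hc
  refine ⟨⟨⟨fun z => x ^ (Multiplicative.toAdd z).1 * y ^ (Multiplicative.toAdd z).2, ?_⟩, ?_⟩, ?_⟩
  · simp
  · intro a b
    simp only [toAdd_mul, Prod.fst_add, Prod.snd_add, zpow_add]
    have h1 : Commute (x ^ (Multiplicative.toAdd b).1) (y ^ (Multiplicative.toAdd a).2) :=
      hC.zpow_zpow _ _
    simp only [mul_assoc]
    congr 1
    rw [← mul_assoc, ← mul_assoc, h1.eq]
  · rw [injective_iff_map_eq_one]
    intro a ha
    obtain ⟨h1, h2⟩ := h _ _ ha
    apply Multiplicative.toAdd.injective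
    exact Prod.ext h1 h2

theorem t_BSZ : S_BSZ := by
  intro p q hp hq
  let a : PresentedGroup (Rel p q) := PresentedGroup.of false
  let t : PresentedGroup (Rel p q) := PresentedGroup.of true
  have hrel : t * a ^ p * t⁻¹ = a ^ q := by
    have h := PresentedGroup.one_of_mem (rels := Rel p q) (Set.mem_singleton _)
    rw [map_mul, map_mul, map_mul, map_zpow, map_inv, map_inv, map_zpow] at h
    exact mul_inv_eq_one.1 h
  -- the exponent of `t`
  let f1 : Bool → Multiplicative ℤ := fun b => if b then Multiplicative.ofAdd 1 else 1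
  have h1 : ∀ r ∈ Rel p q, FreeGroup.lift f1 r = 1 := by
    intro r hr
    rw [Set.mem_singleton_iff.1 hr]
    simp [f1]
  let φ1 : PresentedGroup (Rel p q) →* Multiplicative ℤ := PresentedGroup.toGroup h1
  have φ1a : φ1 a = 1 := by
    change PresentedGroup.toGroup h1 (PresentedGroup.of false) = 1
    rw [PresentedGroup.toGroup.of]
    simp [f1]
  have φ1t : φ1 t = Multiplicative.ofAdd 1 := by
    change PresentedGroup.toGroup h1 (PresentedGroup.of true) = _
    rw [PresentedGroup.toGroup.of]
    simp [f1]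
  -- the affine maps
  let s : Equiv.Perm ℤ := if q = p then 1 else Equiv.neg ℤ
  let f2 : Bool → Equiv.Perm ℤ := fun b => if b then s else Equiv.addRight 1
  have hpow : ∀ m z : ℤ, ((Equiv.addRight (1 : ℤ)) ^ m : Equiv.Perm ℤ) z = z + m := by
    intro m z
    induction m using Int.induction_on generalizing z with
    | zero => simp
    | succ i ih =>
      rw [zpow_add_one, Equiv.Perm.mul_apply, ih, Equiv.coe_addRight]
      ring
    | pred i ih =>
      rw [zpow_sub_one, Equiv.Perm.mul_apply, ih]
      have : ((Equiv.addRight (1 : ℤ))⁻¹ : Equiv.Perm ℤ) z = z - 1 := by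
        rw [Equiv.Perm.inv_eq_iff_eq]
        simp
      rw [this]
      ring
  have h2 : ∀ r ∈ Rel p q, FreeGroup.lift f2 r = 1 := by
    intro r hr
    rw [Set.mem_singleton_iff.1 hr]
    simp only [map_mul, map_inv, map_zpow, FreeGroup.lift_apply_of]
    rw [mul_inv_eq_one]
    change s * (Equiv.addRight (1 : ℤ)) ^ p * s⁻¹ = (Equiv.addRight (1 : ℤ)) ^ q
    by_cases hqp : q = p
    · have : s = 1 := if_pos hqp
      rw [this, hqp]
      simp
    · have : s = Equiv.neg ℤ := if_neg hqp
      have hq' : q = -p := hq.resolve_left hqp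
      rw [this, mul_inv_eq_iff_eq_mul, hq']
      ext z
      rw [Equiv.Perm.mul_apply, Equiv.Perm.mul_apply, hpow, hpow]
      simp
      ring
  let φ2 : PresentedGroup (Rel p q) →* Equiv.Perm ℤ := PresentedGroup.toGroup h2
  have φ2a : φ2 a = Equiv.addRight 1 := by
    change PresentedGroup.toGroup h2 (PresentedGroup.of false) = _
    rw [PresentedGroup.toGroup.of]
    simp [f2]
  have hcomm : a ^ p * t ^ 2 = t ^ 2 * a ^ p := by
    have h3 : t * a ^ p = a ^ q * t := by
      rw [← hrel]
      group
    have h4 : t * a ^ q = a ^ p * t := by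
      rcases hq with rfl | rfl
      · exact h3
      · have h5 : t * a ^ (-p) * t⁻¹ = a ^ p := by
          have h6 := congrArg (fun g => g⁻¹) hrel
          simp only [mul_inv_rev, inv_inv, ← zpow_neg, neg_neg] at h6
          rw [← h6, mul_assoc]
        rw [← h5]
        group
    calc a ^ p * t ^ 2 = (a ^ p * t) * t := by rw [pow_two, mul_assoc]
      _ = t * (a ^ q * t) := by rw [← h4, mul_assoc]
      _ = t ^ 2 * a ^ p := by rw [← h3, ← mul_assoc, pow_two]
  refine hasZ2_of (G := PresentedGroup (Rel p q)) (a ^ p) (t ^ 2) hcomm fun m n h => ?_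
  have hn : n = 0 := by
    have h3 := congrArg φ1 h
    rw [map_mul, map_zpow, map_zpow, map_zpow, map_pow, φ1a, φ1t, one_zpow, one_zpow, one_mul,
      MonoidHom.map_one φ1] at h3
    have h4 := congrArg Multiplicative.toAdd h3
    rw [toAdd_zpow, toAdd_pow, toAdd_ofAdd, toAdd_one] at h4
    simpa using h4
  refine ⟨?_, hn⟩
  rw [hn, zpow_zero, mul_one] at h
  have h3 := congrArg (fun g => (φ2 g) 0) h
  simp only [map_zpow, φ2a, map_one, Equiv.Perm.one_apply, ← zpow_mul] at h3
  rw [hpow] at h3
  rw [zero_add] at h3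
  exact (mul_eq_zero.1 h3).resolve_left hp

end Pool.Agent.U208.FSP
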